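import Pool.Agent.Helper15.HS.GoalsC
import Pool.Agent.Helper13.SP.LMID
import Pool.Agent.Helper10.Lin.PhDiv

/-! # MOMG: integrals of determinants of closed forms do not change in their cohomology class -/

set_option autoImplicit false

open Complex Metric Set Filter Topology MeasureTheory
open scoped ContDiff ComplexConjugate ComplexOrder Manifold Matrix

namespace Pool.Agent.Helper67.HS

open Pool.Agent.Helper95.Lin Pool.Agent.Helper16.Abund Pool.Agent.Helper92.Orb
open Pool.Agent.Helper10.SP Pool.Agent.Helper57.HS Pool.Agent.Helper15.HS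
open Pool.Agent.Helper13.SP Pool.Agent.Helper10.Lin

universe u v

/-! ## Linear algebra -/

/-- The sum of the determinants with one row replaced. -/
theorem sum_det_updateRow {m : ℕ} (A B : Matrix (Fin m) (Fin m) ℂ) :
    ∑ l, (A.updateRow l (B l)).det = Matrix.trace (A.adjugate * B) := by
  have h : ∀ l, (A.updateRow l (B l)).det = ∑ j, A.adjugate j l * B l j := by
    intro l
    have h1 := Matrix.cramer_transpose_apply A (B l) l
    rw [← h1, Matrix.cramer_eq_adjugate_mulVec, ← Matrix.adjugate_transpose]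
    simp only [Matrix.mulVec, dotProduct, Matrix.transpose_apply]
  simp only [h]
  rw [Matrix.trace, Finset.sum_comm]
  exact Finset.sum_congr rfl fun j _ => by rw [Matrix.diag_apply, Matrix.mul_apply]

/-- Jacobi's formula along a line. -/
theorem hasDerivAt_det {m : ℕ} (A B : Matrix (Fin m) (Fin m) ℂ) (r : ℝ) :
    HasDerivAt (fun r : ℝ => (A + (r : ℂ) • B).det)
      (Matrix.trace ((A + (r : ℂ) • B).adjugate * B)) r := by
  have h1 : ∀ M : Matrix (Fin m) (Fin m) ℂ, M.det =
      ∑ σ : Equiv.Perm (Fin m), ((Equiv.Perm.sign σ : ℤ) : ℂ) * ∏ i, M i (σ i) := by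
    intro M
    rw [← Matrix.det_transpose, Matrix.det_apply']
    rfl
  have hent : ∀ i j, HasDerivAt (fun r : ℝ => (A + (r : ℂ) • B) i j) (B i j) r := by
    intro i j
    have h2 : HasDerivAt (fun r : ℝ => A i j + (r : ℂ) * B i j) (0 + 1 * B i j) r := by
      refine (hasDerivAt_const r (A i j)).add ?_
      exact (Complex.ofRealCLM.hasDerivAt (x := r)).mul_const (B i j)
    simpa [Matrix.add_apply, Matrix.smul_apply] using h2
  have h2 : ∀ σ : Equiv.Perm (Fin m), HasDerivAt (fun r : ℝ => ∏ i, (A + (r : ℂ) • B) i (σ i))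
      (∑ l, (∏ i ∈ Finset.univ.erase l, (A + (r : ℂ) • B) i (σ i)) • B l (σ l)) r := by
    intro σ
    exact HasDerivAt.fun_finsetProd (fun i _ => hent i (σ i))
  have h3 : HasDerivAt (fun r : ℝ => (A + (r : ℂ) • B).det)
      (∑ σ : Equiv.Perm (Fin m), ((Equiv.Perm.sign σ : ℤ) : ℂ) *
        ∑ l, (∏ i ∈ Finset.univ.erase l, (A + (r : ℂ) • B) i (σ i)) • B l (σ l)) r := by
    have : (fun r : ℝ => (A + (r : ℂ) • B).det) = fun r : ℝ => ∑ σ : Equiv.Perm (Fin m),
        ((Equiv.Perm.sign σ : ℤ) : ℂ) * ∏ i, (A + (r : ℂ) • B) i (σ i) := by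
      funext y
      exact h1 _
    rw [this]
    exact HasDerivAt.fun_sum fun σ _ => (h2 σ).const_mul _
  have h4 : ∑ σ : Equiv.Perm (Fin m), ((Equiv.Perm.sign σ : ℤ) : ℂ) *
        ∑ l, (∏ i ∈ Finset.univ.erase l, (A + (r : ℂ) • B) i (σ i)) • B l (σ l) =
      ∑ l, ((A + (r : ℂ) • B).updateRow l (B l)).det := by
    simp only [h1, Finset.mul_sum]
    rw [Finset.sum_comm]
    refine Finset.sum_congr rfl fun l _ => Finset.sum_congr rfl fun σ _ => ?_
    congr 1
    rw [smul_eq_mul, ← Finset.mul_prod_erase Finset.univ _ (Finset.mem_univ l), mul_comm]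
    congr 1
    · simp
    · refine Finset.prod_congr rfl fun i hi => ?_
      rw [Matrix.updateRow_ne (Finset.ne_of_mem_erase hi)]
  rw [h4, sum_det_updateRow] at h3
  exact h3

theorem det_cj {m : ℕ} (J : Matrix (Fin m) (Fin m) ℂ) : (cj J).det = conj J.det := by
  unfold cj
  rw [RingHom.map_det]
  rfl

theorem det_fderiv_Jm {n : ℕ} (φ : Cn n → Cn n) (y : Cn n) :
    (fderiv ℂ φ y).det = (Jm φ y).det := by
  have h : (fderiv ℂ φ y : Cn n →ₗ[ℂ] Cn n) = Matrix.toLin' (Jm φ y) := by
    apply LinearMap.ext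
    intro v
    rw [Matrix.toLin'_apply]
    exact fderiv_eq_Jm φ y v
  rw [ContinuousLinearMap.det, h, LinearMap.det_toLin']

theorem adj_smul_identity {m : ℕ} (J : Matrix (Fin m) (Fin m) ℂ) (v : Fin m → ℂ) :
    J *ᵥ (J.adjugate *ᵥ v) = J.det • v := by
  rw [Matrix.mulVec_mulVec, Matrix.mul_adjugate, Matrix.smul_mulVec, Matrix.one_mulVec]

/-! ## The field -/

/-- The field `Y^k = ∑ j (adj Z) j k cdb_j u`. -/
noncomputable def YZ {n : ℕ} (Z : Cn n → Matrix (Fin n) (Fin n) ℂ) (u : Cn n → ℝ) (x : Cn n) :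
    Cn n := ((Z x).adjugate)ᵀ *ᵥ cu u x

section nat

variable {n : ℕ} {T : Set (Cn n)} {G : Type u} [Group G] {R : G → Cn n → Cn n → Prop}
  {Z : Cn n → Matrix (Fin n) (Fin n) ℂ} {u : Cn n → ℝ}

theorem hermi_eq {n : ℕ} (A : Matrix (Fin n) (Fin n) ℂ) (u v : Cn n) :
    hermi A u v = u ⬝ᵥ (A *ᵥ fun j => conj (v j)) := by
  unfold hermi
  simp only [dotProduct, Matrix.mulVec, Finset.mul_sum]
  exact Finset.sum_congr rfl fun i _ => Finset.sum_congr rfl fun j _ => by ring

theorem hermi_mulVec {n : ℕ} (A J : Matrix (Fin n) (Fin n) ℂ) (u v : Cn n) :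
    hermi A (J *ᵥ u) (J *ᵥ v) = hermi (Jᵀ * A * cj J) u v := by
  have h1 : (fun j => conj ((J *ᵥ v) j)) = cj J *ᵥ fun j => conj (v j) := by
    funext j
    simp only [Matrix.mulVec, dotProduct, map_sum, map_mul, cj, Matrix.map_apply]
  rw [hermi_eq, hermi_eq, h1, ← Matrix.mulVec_mulVec, ← Matrix.mulVec_mulVec,
    Matrix.dotProduct_mulVec u, Matrix.vecMul_transpose]

omit [Group G] in
/-- Invariant forms in matrix form. -/
theorem nat_Z (hinv : InvH R Z) {U : Set (Cn n)} {τ : Cn n → Cn n} (ha : Arr R U τ) {x : Cn n}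
    (hx : x ∈ U) : Z x = (Jm τ x)ᵀ * Z (τ x) * cj (Jm τ x) := by
  ext i j
  have h1 := hinv U τ ha x hx (Pi.single i 1) (Pi.single j 1)
  have h2 : hermi (Z x) (Pi.single i 1) (Pi.single j 1) = Z x i j := by
    unfold hermi
    rw [Finset.sum_eq_single i, Finset.sum_eq_single j]
    · simp
    · intro b _ hb
      simp [hb]
    · intro h; exact absurd (Finset.mem_univ j) h
    · intro b _ hb
      apply Finset.sum_eq_zero
      intro c _
      simp [Pi.single_apply, hb]
    · intro h; exact absurd (Finset.mem_univ i) h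
  rw [← h2, ← h1]
  unfold hermi
  rw [Matrix.mul_apply, Finset.sum_comm]
  refine Finset.sum_congr rfl fun b _ => ?_
  rw [Matrix.mul_apply, Finset.sum_mul]
  refine Finset.sum_congr rfl fun a _ => ?_
  simp only [Matrix.transpose_apply, cj, Jm, Matrix.of_apply, Matrix.map_apply]
  ring

omit [Group G] in
theorem dinv_of_invF (hu : InvF T R u) : DInv R u := by
  intro U τ ha x hx
  obtain ⟨γ, hγ⟩ := ha.2.2
  apply Filter.EventuallyEq.fderiv_eq
  filter_upwards [ha.1.mem_nhds hx] with y hy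
  exact hu.2 γ y (τ y) (hγ y hy)

theorem nat_YZ (hW : S_WCH) (hE : Et T R) (hinv : InvH R Z) (hu : ContDiffOn ℝ ∞ u T)
    (hD : DInv R u) {U : Set (Cn n)} {τ : Cn n → Cn n} (ha : Arr R U τ) {x : Cn n} (hx : x ∈ U) :
    fderiv ℂ τ x (YZ Z u x) = ((‖(fderiv ℂ τ x).det‖ ^ 2 : ℝ) : ℂ) • YZ Z u (τ x) := by
  rw [fderiv_eq_Jm, det_fderiv_Jm]
  set J := Jm τ x with hJ
  unfold YZ
  rw [nat_cu hW hE hu hD ha hx, nat_Z hinv ha hx, ← hJ]
  rw [Matrix.adjugate_mul_distrib, Matrix.adjugate_mul_distrib, Matrix.transpose_mul,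
    Matrix.transpose_mul]
  have e1 : ((Jᵀ).adjugate)ᵀ = J.adjugate := by
    rw [Matrix.adjugate_transpose, Matrix.transpose_transpose]
  have e2 : ((cj J).adjugate)ᵀ *ᵥ ((cj J)ᵀ *ᵥ cu u (τ x)) = (cj J).det • cu u (τ x) := by
    rw [Matrix.mulVec_mulVec, ← Matrix.transpose_mul, Matrix.mul_adjugate,
      Matrix.transpose_smul, Matrix.transpose_one, Matrix.smul_mulVec, Matrix.one_mulVec]
  rw [e1, ← Matrix.mulVec_mulVec, e2, Matrix.mulVec_smul, ← Matrix.mulVec_mulVec,
    Matrix.mulVec_smul, adj_smul_identity, smul_smul, det_cj]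
  congr 1
  rw [mul_comm, Complex.mul_conj, Complex.normSq_eq_norm_sq]

end nat

/-! ## The divergence -/

/-- The path of forms. -/
noncomputable def Zr {n : ℕ} (Z : Cn n → Matrix (Fin n) (Fin n) ℂ) (u : Cn n → ℝ) (r : ℝ)
    (x : Cn n) : Matrix (Fin n) (Fin n) ℂ := Z x + (r : ℂ) • LM u x

theorem div_YZ {n : ℕ} {T : Set (Cn n)} {Z : Cn n → Matrix (Fin n) (Fin n) ℂ} {u : Cn n → ℝ}
    (hT : IsOpen T) (hZ : ∀ i j, ContDiffOn ℝ ∞ (fun x => Z x i j) T)
    (hc : ∀ x ∈ T, ∀ i j l, cd l (fun y => Z y i j) x = cd i (fun y => Z y l j) x)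
    (hcu : ∀ j, ContDiffOn ℝ ∞ (fun x => cu u x j) T) {x : Cn n} (hx : x ∈ T) :
    ∑ k, cd k (fun y => YZ Z u y k) x = Matrix.trace ((Z x).adjugate * LM u x) := by
  have hda : ∀ i j, DifferentiableAt ℝ (fun x => (Z x).adjugate i j) x := fun i j =>
    ((adj_contDiffOn T Z hZ i j).contDiffAt (hT.mem_nhds hx)).differentiableAt (by simp)
  have hdc : ∀ j, DifferentiableAt ℝ (fun x => cu u x j) x := fun j =>
    ((hcu j).contDiffAt (hT.mem_nhds hx)).differentiableAt (by simp)
  have hdZ : ∀ i j, DifferentiableAt ℝ (fun x => Z x i j) x := fun i j =>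
    ((hZ i j).contDiffAt (hT.mem_nhds hx)).differentiableAt (by simp)
  have h1 : ∀ k, cd k (fun y => YZ Z u y k) x =
      ∑ j, ((Z x).adjugate j k * LM u x k j + cu u x j * cd k (fun y => (Z y).adjugate j k) x) := by
    intro k
    have e : (fun y => YZ Z u y k) = fun y => ∑ j, (Z y).adjugate j k * cu u y j := by
      funext y
      simp only [YZ, Matrix.mulVec, dotProduct, Matrix.transpose_apply]
    rw [e, cd_sum _ (fun j _ => (hda j k).fun_mul (hdc j))]
    refine Finset.sum_congr rfl fun j _ => ?_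
    rw [cd_mul (hda j k) (hdc j)]
    rfl
  simp only [h1]
  rw [Finset.sum_comm, Matrix.trace]
  refine Finset.sum_congr rfl fun j _ => ?_
  rw [Finset.sum_add_distrib, ← Finset.mul_sum, div_adj Z hdZ (hc x hx) j, mul_zero, add_zero,
    Matrix.diag_apply, Matrix.mul_apply]

/-! ## Assembly -/

theorem integrableOn_mul_c {n : ℕ} {T : Set (Cn n)} (hT : IsOpen T) {κ : Cn n → ℝ}
    (hκ : TestF T κ) {g : Cn n → ℂ} (hg : ContinuousOn g T) :
    IntegrableOn (fun x => (κ x : ℂ) * g x) T := by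
  have h1 : IntegrableOn (fun x => (κ x : ℂ) * g x) (tsupport κ) :=
    ((Complex.continuous_ofReal.comp hκ.1.continuous).continuousOn.mul
      (hg.mono hκ.2.2)).integrableOn_compact hκ.2.1
  refine h1.of_forall_sdiff_eq_zero hT.measurableSet ?_
  rintro x ⟨-, hx⟩
  rw [image_eq_zero_of_notMem_tsupport hx, Complex.ofReal_zero, zero_mul]

theorem cont_det {α : Type*} [TopologicalSpace α] {m : ℕ} {s : Set α}
    {A : α → Matrix (Fin m) (Fin m) ℂ} (hA : ∀ i j, ContinuousOn (fun x => A x i j) s) :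
    ContinuousOn (fun x => (A x).det) s := by
  simp only [Matrix.det_apply']
  refine continuousOn_finsetSum _ fun σ _ => ?_
  exact continuousOn_const.mul (continuousOn_finsetProd _ fun i _ => hA _ _)

theorem cont_adj {α : Type*} [TopologicalSpace α] {m : ℕ} {s : Set α}
    {A : α → Matrix (Fin m) (Fin m) ℂ} (hA : ∀ i j, ContinuousOn (fun x => A x i j) s)
    (k j : Fin m) : ContinuousOn (fun x => (A x).adjugate k j) s := by
  simp only [Matrix.adjugate_apply]
  refine cont_det fun i l => ?_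
  by_cases hi : i = j
  · subst hi
    simp only [Matrix.updateRow_self]
    exact continuousOn_const
  · simp only [Matrix.updateRow_ne hi]
    exact hA i l

theorem cont_tr {α : Type*} [TopologicalSpace α] {m : ℕ} {s : Set α}
    {A B : α → Matrix (Fin m) (Fin m) ℂ} (hA : ∀ i j, ContinuousOn (fun x => A x i j) s)
    (hB : ∀ i j, ContinuousOn (fun x => B x i j) s) :
    ContinuousOn (fun x => (Matrix.trace ((A x).adjugate * B x)).re) s := by
  have e : (fun x => (Matrix.trace ((A x).adjugate * B x)).re) =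
      fun x => (∑ j, ∑ k, (A x).adjugate j k * B x k j).re := by
    funext x
    congr 1
  rw [e]
  refine Complex.continuous_re.comp_continuousOn ?_
  exact continuousOn_finsetSum _ fun j _ => continuousOn_finsetSum _ fun k _ =>
    (cont_adj hA j k).mul (hB k j)

/-- Differentiation under the integral. -/
theorem hasDerivAt_int {n : ℕ} {T : Set (Cn n)} (hT : IsOpen T) {κ : Cn n → ℝ}
    (hκ : TestF T κ) (D D' : ℝ → Cn n → ℝ) (hD : ∀ r, ContinuousOn (D r) T)
    (hD' : ∀ r, ContinuousOn (D' r) T)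
    (hj : ContinuousOn (fun p : ℝ × Cn n => κ p.2 * D' p.1 p.2) (univ ×ˢ T))
    (hd : ∀ x r, HasDerivAt (fun r => D r x) (D' r x) r) (r₀ : ℝ) :
    HasDerivAt (fun r : ℝ => ∫ x in T, κ x * D r x) (∫ x in T, κ x * D' r₀ x) r₀ := by
  obtain ⟨B, hB⟩ := ((isCompact_closedBall r₀ (1 : ℝ)).prod hκ.2.1).exists_bound_of_continuousOn
    (hj.mono (Set.prod_mono (subset_univ _) hκ.2.2))
  have b1 : ∀ᶠ r in 𝓝 r₀, AEStronglyMeasurable (fun x => κ x * D r x) (volume.restrict T) :=
    Filter.Eventually.of_forall fun r => (integrableOn_mul hT hκ (hD r)).1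
  have b2 : Integrable (fun x => κ x * D r₀ x) (volume.restrict T) := integrableOn_mul hT hκ (hD r₀)
  have b3 : AEStronglyMeasurable (fun x => κ x * D' r₀ x) (volume.restrict T) :=
    (integrableOn_mul hT hκ (hD' r₀)).1
  have b4 : ∀ᵐ x ∂(volume.restrict T), ∀ r ∈ closedBall r₀ (1 : ℝ),
      ‖κ x * D' r x‖ ≤ (tsupport κ).indicator (fun _ => B) x := by
    refine Filter.Eventually.of_forall fun x r hr => ?_
    by_cases hx : x ∈ tsupport κ
    · rw [indicator_of_mem hx]
      exact hB (r, x) ⟨hr, hx⟩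
    · rw [indicator_of_notMem hx, image_eq_zero_of_notMem_tsupport hx, zero_mul, norm_zero]
  have b5 : Integrable ((tsupport κ).indicator fun _ => B) (volume.restrict T) := by
    refine Integrable.restrict ?_
    rw [integrable_indicator_iff (isClosed_tsupport κ).measurableSet]
    exact integrableOn_const hκ.2.1.measure_lt_top.ne
  have b6 : ∀ᵐ x ∂(volume.restrict T), ∀ r ∈ closedBall r₀ (1 : ℝ),
      HasDerivAt (fun r => κ x * D r x) (κ x * D' r x) r :=
    Filter.Eventually.of_forall fun x r _ => (hd x r).const_mul (κ x)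
  exact (hasDerivAt_integral_of_dominated_loc_of_deriv_le
    (Metric.closedBall_mem_nhds r₀ one_pos) b1 b2 b3 b4 b5 b6).2

theorem momg (hWIRT : S_WIRT) (hWCH : S_WCH) (hLMF : S_LMF) (hDIVC : S_DIVC.{u}) :
    S_MOMG.{u} := by
  intro n T G _ R H hK κ hκ Z hZ hZi u hu
  have hE := hK.et
  have hT := hE.isOpen
  have hD : DInv R u := dinv_of_invF hu
  obtain ⟨l1, l2, l3, l4⟩ := hLMF T hT u hu.1
  have hcu : ∀ j, ContDiffOn ℝ ∞ (fun x => cu u x j) T := fun j =>
    ((hWIRT T hT _ _ (contDiffOn_ofReal hu.1) (contDiffOn_ofReal hu.1)).1 j).2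
  -- smoothness of the path
  have hZs : ∀ r : ℝ, ∀ i j, ContDiffOn ℝ ∞ (fun x => Zr Z u r x i j) T := by
    intro r i j
    have e : (fun x => Zr Z u r x i j) = fun x => Z x i j + (r : ℂ) * LM u x i j := by
      funext x
      simp [Zr, Matrix.add_apply, Matrix.smul_apply]
    rw [e]
    exact (hZ.smooth i j).add (contDiffOn_const.mul (l1 i j))
  have hZc : ∀ r : ℝ, ∀ x ∈ T, ∀ i j l, cd l (fun y => Zr Z u r y i j) x =
      cd i (fun y => Zr Z u r y l j) x := by
    intro r x hx i j l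
    have hd1 : ∀ i j, DifferentiableAt ℝ (fun x => Z x i j) x := fun i j =>
      ((hZ.smooth i j).contDiffAt (hT.mem_nhds hx)).differentiableAt (by simp)
    have hd2 : ∀ i j, DifferentiableAt ℝ (fun x => LM u x i j) x := fun i j =>
      ((l1 i j).contDiffAt (hT.mem_nhds hx)).differentiableAt (by simp)
    have e : ∀ l i, cd l (fun y => Zr Z u r y i j) x = cd l (fun y => Z y i j) x +
        (r : ℂ) * cd l (fun y => LM u y i j) x := by
      intro l i
      have e1 : (fun x => Zr Z u r x i j) = fun x => Z x i j + (r : ℂ) * LM u x i j := by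
        funext x
        simp [Zr, Matrix.add_apply, Matrix.smul_apply]
      rw [e1]
      unfold cd
      rw [fderiv_fun_add (hd1 i j) ((hd2 i j).const_mul _), fderiv_const_mul (hd2 i j)]
      simp only [add_apply, smul_apply, smul_eq_mul]
      ring
    rw [e l i, e i l, hZ.closed x hx i j l, (l4 x hx i j l).1]
  have hZinv : ∀ r : ℝ, InvH R (Zr Z u r) := by
    intro r U τ ha x hx a b
    have h1 := hZi U τ ha x hx a b
    have h2 : hermi (LM u (τ x)) (fderiv ℂ τ x a) (fderiv ℂ τ x b) = hermi (LM u x) a b := by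
      rw [fderiv_eq_Jm, fderiv_eq_Jm, hermi_mulVec, ← nat_LM hWCH hE hu.1 hD ha hx]
    have h3 : ∀ (A B : Matrix (Fin n) (Fin n) ℂ) (v w : Cn n),
        hermi (A + (r : ℂ) • B) v w = hermi A v w + (r : ℂ) * hermi B v w := by
      intro A B v w
      unfold hermi
      rw [Finset.mul_sum, ← Finset.sum_add_distrib]
      refine Finset.sum_congr rfl fun i _ => ?_
      rw [Finset.mul_sum, ← Finset.sum_add_distrib]
      refine Finset.sum_congr rfl fun j _ => ?_
      rw [Matrix.add_apply, Matrix.smul_apply, smul_eq_mul]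
      ring
    unfold Zr
    rw [h3, h3, h1, h2]
  -- the key: the integral of the derivative vanishes
  have hcont : ∀ r : ℝ, ContinuousOn (fun x => Matrix.trace ((Zr Z u r x).adjugate * LM u x)) T := by
    intro r
    have e : (fun x => Matrix.trace ((Zr Z u r x).adjugate * LM u x)) =
        fun x => ∑ j, ∑ k, (Zr Z u r x).adjugate j k * LM u x k j := by
      funext x
      rw [Matrix.trace]
      exact Finset.sum_congr rfl fun j _ => by rw [Matrix.diag_apply, Matrix.mul_apply]
    rw [e]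
    exact (ContDiffOn.sum fun j _ => ContDiffOn.sum fun k _ =>
      (adj_contDiffOn T _ (hZs r) j k).mul (l1 k j)).continuousOn
  have hkey : ∀ r : ℝ,
      ∫ x in T, κ x * (Matrix.trace ((Zr Z u r x).adjugate * LM u x)).re = 0 := by
    intro r
    have hS : ContDiffOn ℝ ∞ (YZ (Zr Z u r) u) T := by
      rw [contDiffOn_pi]
      intro k
      have e : (fun x => YZ (Zr Z u r) u x k) =
          fun y => ∑ j, (Zr Z u r y).adjugate j k * cu u y j := by
        funext y
        simp only [YZ, Matrix.mulVec, dotProduct, Matrix.transpose_apply]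
      rw [e]
      exact ContDiffOn.sum fun j _ => (adj_contDiffOn T _ (hZs r) j k).mul (hcu j)
    have h1 := hDIVC T R H hK κ hκ (YZ (Zr Z u r) u) hS
      (fun U τ ha x hx => nat_YZ hWCH hE (hZinv r) hu.1 hD ha hx)
    have h2 : ∫ x in T, (κ x : ℂ) * Matrix.trace ((Zr Z u r x).adjugate * LM u x) = 0 := by
      rw [← h1]
      refine setIntegral_congr_fun hT.measurableSet fun x hx => ?_
      rw [div_YZ hT (hZs r) (hZc r) hcu hx]
    have h3 := congrArg Complex.re h2
    rw [Complex.zero_re] at h3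
    rw [← h3]
    have h4 := integral_re (integrableOn_mul_c hT hκ.test (hcont r))
    have h5 : ∀ x, κ x * (Matrix.trace ((Zr Z u r x).adjugate * LM u x)).re =
        RCLike.re ((κ x : ℂ) * Matrix.trace ((Zr Z u r x).adjugate * LM u x)) := by
      intro x
      show _ = (_ : ℂ).re
      rw [Complex.re_ofReal_mul]
    simp only [h5]
    exact h4
  -- differentiation under the integral
  have hm : MapsTo (fun p : ℝ × Cn n => p.2) (univ ×ˢ T) T := fun p hp => hp.2
  have hcM : ∀ i j, ContinuousOn (fun p : ℝ × Cn n => Zr Z u p.1 p.2 i j) (univ ×ˢ T) := by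
    intro i j
    have e : (fun p : ℝ × Cn n => Zr Z u p.1 p.2 i j) =
        fun p => Z p.2 i j + (p.1 : ℂ) * LM u p.2 i j := by
      funext p
      simp [Zr, Matrix.add_apply, Matrix.smul_apply]
    rw [e]
    exact ((hZ.smooth i j).continuousOn.comp continuousOn_snd hm).add
      ((Complex.continuous_ofReal.comp continuous_fst).continuousOn.mul
        ((l1 i j).continuousOn.comp continuousOn_snd hm))
  have hcL : ∀ i j, ContinuousOn (fun p : ℝ × Cn n => LM u p.2 i j) (univ ×ˢ T) :=
    fun i j => (l1 i j).continuousOn.comp continuousOn_snd hm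
  have hcF : ContinuousOn (fun p : ℝ × Cn n => κ p.2 *
      (Matrix.trace ((Zr Z u p.1 p.2).adjugate * LM u p.2)).re) (univ ×ˢ T) :=
    (hκ.test.1.continuous.comp continuous_snd).continuousOn.mul (cont_tr hcM hcL)
  have hcD : ∀ r : ℝ, ContinuousOn (fun x => (Zr Z u r x).det.re) T := fun r =>
    Complex.continuous_re.comp_continuousOn (cont_det fun i j => (hZs r i j).continuousOn)
  have hder : ∀ r₀ : ℝ, HasDerivAt (fun r : ℝ => ∫ x in T, κ x * (Zr Z u r x).det.re) 0 r₀ := by
    intro r₀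
    have h := hasDerivAt_int hT hκ.test (fun r x => (Zr Z u r x).det.re)
      (fun r x => (Matrix.trace ((Zr Z u r x).adjugate * LM u x)).re) hcD
      (fun r => Complex.continuous_re.comp_continuousOn (hcont r)) hcF
      (fun x r => (Complex.reCLM.hasFDerivAt.comp_hasDerivAt r
        (hasDerivAt_det (Z x) (LM u x) r))) r₀
    rw [hkey r₀] at h
    exact h
  have hconst := is_const_of_deriv_eq_zero (fun r => (hder r).differentiableAt)
    (fun r => (hder r).deriv) 1 0
  have e1 : ∀ x, Zr Z u 1 x = Z x + LM u x := by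
    intro x; simp [Zr]
  have e0 : ∀ x, Zr Z u 0 x = Z x := by
    intro x; simp [Zr]
  simpa only [e1, e0] using hconst

end Pool.Agent.Helper67.HS
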